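import Mathlib
import Pool.Agent.H.MP_616e01_lc.Defs
import Pool.Agent.H.MP_616e01_lc.Measure

/-!
Every `C`-trivial measure on Cantor space is `K`-trivial.
-/

namespace Pool.Agent.Results.MP_616e01_lc.CTrivialImpliesKTrivial

open Pool.Agent.H.MP_616e01_lc

/-- For every optimal plain machine `U` (defining `C`) and every optimal machine `V` with an
antichain as domain (defining `K`), every Borel probability measure on Cantor space that is
`C`-trivial is `K`-trivial. -/
theorem result :
    ∀ U V : Machine, OptimalPlain U → OptimalPrefixFree V →
      ∀ μ : MeasureTheory.Measure (ℕ → Bool), MeasureTheory.IsProbabilityMeasure μ →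
        IsTrivial U μ → IsTrivial V μ := by
  intro U V hU hV μ hμ h
  exact main μ hU hV h

end Pool.Agent.Results.MP_616e01_lc.CTrivialImpliesKTrivial
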